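import Pool.Agent.U506.CK.E

/-!
# Clarkson inequalities for `n`-tuples of operators: full answer to Q1 and Q2 (both are true)

Let `H` be a complex Hilbert space, `A_0, …, A_{n-1}` operators of the Schatten class `S_p` and `1 / p + 1 / q = 1`.
For `2 ≤ p < ∞`
`n (∑ ‖A_j‖_p ^ p) ^ (q / p) ≤ ‖∑ A_j‖_p ^ q + ∑_{j < k} ‖A_j - A_k‖_p ^ q`,
and for `1 < p ≤ 2` the reverse inequality holds. More generally the same is true for every finite matrix `T` with
entries of absolute value at most one and `T* T = N`: for `2 ≤ p < ∞`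
`N (∑ ‖A_j‖_p ^ p) ^ (q / p) ≤ ∑_i ‖∑_j T_ij A_j‖_p ^ q`, and the reverse inequality holds for `1 < p ≤ 2`.

Proof. The matrix `T` with the row `(1, …, 1)` and the rows `e_j - e_k`, `j < k`, has entries `0, 1, -1` and satisfies
`T* T = n`. For `1 < p ≤ 2` interpolate (three lines theorem, with the singular value expansions of the operators)
between `ℓ^1(S_1) → ℓ^∞(S_∞)` with norm one and `ℓ^2(S_2) → ℓ^2(S_2)` with norm `N ^ (1 / 2)`. The case `p ≥ 2` follows by
duality from `A_j = (1 / N) ∑_i conj (T_ij) B_i`.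
-/

set_option autoImplicit false

namespace Pool.Agent.Results.MP_5deb6a_an.ClarksonTuples

open Finset Pool.Agent.Helper526.Sch Pool.Agent.U506.CK
open scoped ComplexConjugate

universe u v

/-- the matrix of the question: the row of ones and the rows `e_a - e_b`, `a < b` (and rows of zeros) -/
noncomputable def TT (n : ℕ) : Option (Fin n × Fin n) → Fin n → ℂ
  | none, _ => 1
  | some x, j => if x.1 < x.2 then ((if j = x.1 then 1 else 0) - (if j = x.2 then 1 else 0)) else 0

lemma TT_norm (n : ℕ) (i : Option (Fin n × Fin n)) (j : Fin n) : ‖TT n i j‖ ≤ 1 := by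
  rcases i with _ | x
  · simp [TT]
  · simp only [TT]
    split_ifs <;> simp

lemma half_sum {n : ℕ} (F : Fin n → Fin n → ℂ) (h0 : ∀ a, F a a = 0) (hs : ∀ a b, F a b = F b a) :
    2 * ∑ a, ∑ b, (if a < b then F a b else 0) = ∑ a, ∑ b, F a b := by
  have h1 : ∑ a, ∑ b, F a b = ∑ a, ∑ b, ((if a < b then F a b else 0) + (if b < a then F a b else 0)) := by
    refine sum_congr rfl (fun a _ => sum_congr rfl (fun b _ => ?_))
    rcases lt_trichotomy a b with h | h | h
    · simp [h, h.not_gt]
    · subst h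
      simp [h0]
    · simp [h, h.not_gt]
  have h2 : ∑ a, ∑ b, (if b < a then F a b else 0) = ∑ a, ∑ b, (if a < b then F a b else 0) := by
    rw [sum_comm]
    refine sum_congr rfl (fun a _ => sum_congr rfl (fun b _ => ?_))
    rw [hs]
  rw [h1]
  simp_rw [sum_add_distrib]
  rw [h2]
  ring

lemma TT_orth (n : ℕ) (j j' : Fin n) :
    ∑ i, conj (TT n i j) * TT n i j' = if j = j' then (((n : ℝ)) : ℂ) else 0 := by
  rw [Fintype.sum_option, Fintype.sum_prod_type]
  have h1 : ∀ a b : Fin n, conj (TT n (some (a, b)) j) * TT n (some (a, b)) j' =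
      if a < b then (((if j = a then 1 else 0) - (if j = b then 1 else 0)) *
        ((if j' = a then 1 else 0) - (if j' = b then 1 else 0)) : ℂ) else 0 := by
    intro a b
    simp only [TT]
    split_ifs <;> simp
  simp_rw [h1]
  set F : Fin n → Fin n → ℂ := fun a b => (((if j = a then 1 else 0) - (if j = b then 1 else 0)) *
        ((if j' = a then 1 else 0) - (if j' = b then 1 else 0)) : ℂ) with hF
  have h2 := half_sum F (fun a => by simp [hF]) (fun a b => by simp only [hF]; ring)
  have h3 : ∑ a, ∑ b, F a b = 2 * ((if j = j' then (n : ℂ) else 0) - 1) := by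
    simp only [hF]
    have e : ∀ a b : Fin n, (((if j = a then 1 else 0) - (if j = b then 1 else 0)) *
        ((if j' = a then 1 else 0) - (if j' = b then 1 else 0)) : ℂ) =
        (if j = a then 1 else 0) * (if j' = a then 1 else 0) - (if j = a then 1 else 0) * (if j' = b then 1 else 0) -
        (if j = b then 1 else 0) * (if j' = a then 1 else 0) + (if j = b then 1 else 0) * (if j' = b then 1 else 0) := by
      intro a b
      ring
    simp_rw [e, sum_add_distrib, sum_sub_distrib]
    simp only [← mul_sum, ← sum_mul, sum_ite_eq, mem_univ, if_true, mul_one, one_mul, sum_const, card_univ,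
      Fintype.card_fin, nsmul_eq_mul, mul_ite, mul_zero, ite_mul, zero_mul]
    by_cases h : j = j'
    · subst h
      simp
      ring
    · have h' : ¬ j' = j := fun h2 => h h2.symm
      simp [h, h']
      ring
  have h4 : ∑ a, ∑ b, (if a < b then F a b else 0) = (if j = j' then (n : ℂ) else 0) - 1 := by
    have : (2 : ℂ) * ∑ a, ∑ b, (if a < b then F a b else 0) = 2 * ((if j = j' then (n : ℂ) else 0) - 1) := by
      rw [h2, h3]
    exact mul_left_cancel₀ two_ne_zero this
  rw [h4]
  simp only [TT, map_one, one_mul]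
  split_ifs <;> simp

lemma row_none {n : ℕ} {M : Type*} [AddCommGroup M] [Module ℂ M] (A : Fin n → M) :
    ∑ j, TT n none j • A j = ∑ j, A j := by
  simp [TT]

lemma row_some {n : ℕ} {M : Type*} [AddCommGroup M] [Module ℂ M] (A : Fin n → M) (x : Fin n × Fin n) :
    ∑ j, TT n (some x) j • A j = if x.1 < x.2 then A x.1 - A x.2 else 0 := by
  simp only [TT]
  split_ifs with h
  · simp_rw [sub_smul, sum_sub_distrib, ite_smul, one_smul, zero_smul]
    simp
  · simp

lemma rows_sum {H : Type u} [NormedAddCommGroup H] [InnerProductSpace ℂ H] [CompleteSpace H] {ι : Type v}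
    (b : HilbertBasis ι ℂ H) {n : ℕ} {p q : ℝ} (hp : 0 < p) (hq : 0 < q) (A : Fin n → H →L[ℂ] H) :
    ∑ i, schattenNorm b p (∑ j, TT n i j • A j) ^ q = schattenNorm b p (∑ j, A j) ^ q +
      ∑ x : Fin n × Fin n with x.1 < x.2, schattenNorm b p (A x.1 - A x.2) ^ q := by
  rw [Fintype.sum_option, row_none, sum_filter]
  congr 1
  refine sum_congr rfl (fun x _ => ?_)
  rw [row_some]
  split_ifs with h
  · rfl
  · unfold schattenNorm
    rw [trAbsPow_zero b hp, ENNReal.toReal_zero, Real.zero_rpow (by positivity), Real.zero_rpow hq.ne']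

/-- **Clarkson inequalities for `n`-tuples of operators.** Q1, Q2, and the same for every matrix `T` with entries of
absolute value at most one and `T* T = N`. -/
theorem result :
    (∀ (H : Type u) [NormedAddCommGroup H] [InnerProductSpace ℂ H] [CompleteSpace H] (ι : Type v)
      (b : HilbertBasis ι ℂ H) (n : ℕ) (p q : ℝ) (A : Fin n → H →L[ℂ] H), 2 ≤ n → 1 / p + 1 / q = 1 →
      (∀ j, IsSchatten b p (A j)) →
      (2 ≤ p → n * (∑ j, schattenNorm b p (A j) ^ p) ^ (q / p) ≤ schattenNorm b p (∑ j, A j) ^ q +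
        ∑ x : Fin n × Fin n with x.1 < x.2, schattenNorm b p (A x.1 - A x.2) ^ q) ∧
      (1 < p → p ≤ 2 → schattenNorm b p (∑ j, A j) ^ q +
        ∑ x : Fin n × Fin n with x.1 < x.2, schattenNorm b p (A x.1 - A x.2) ^ q ≤
          n * (∑ j, schattenNorm b p (A j) ^ p) ^ (q / p))) ∧
    (∀ (H : Type u) [NormedAddCommGroup H] [InnerProductSpace ℂ H] [CompleteSpace H] (ι : Type v)
      (b : HilbertBasis ι ℂ H) (m n : ℕ) (T : Matrix (Fin m) (Fin n) ℂ) (N p q : ℝ) (A : Fin n → H →L[ℂ] H),
      0 < N → (∀ i j, ‖T i j‖ ≤ 1) → T.conjTranspose * T = (N : ℂ) • (1 : Matrix (Fin n) (Fin n) ℂ) →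
      1 / p + 1 / q = 1 → (∀ j, IsSchatten b p (A j)) →
      (2 ≤ p → N * (∑ j, schattenNorm b p (A j) ^ p) ^ (q / p) ≤
        ∑ i, schattenNorm b p (∑ j, T i j • A j) ^ q) ∧
      (1 < p → p ≤ 2 → ∑ i, schattenNorm b p (∑ j, T i j • A j) ^ q ≤
        N * (∑ j, schattenNorm b p (A j) ^ p) ^ (q / p))) := by
  refine ⟨?_, ?_⟩
  · intro H _ _ _ ι b n p q A hn hpq hA
    have hn0 : (0 : ℝ) < n := by
      have : 0 < n := by omega
      exact_mod_cast this
    have hq : 1 < p → 0 < q := by
      intro hp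
      have h1 : 1 / p < 1 := by rw [div_lt_one (by linarith)]; exact hp
      have : 0 < 1 / q := by linarith
      exact one_div_pos.1 this
    refine ⟨fun hp => ?_, fun hp hp2 => ?_⟩
    · have h := lower b (TT_norm n) hn0 (TT_orth n) hp hpq A hA
      rwa [rows_sum b (by linarith) (hq (by linarith))] at h
    · have h := upper b (TT_norm n) hn0 (TT_orth n) hp hp2 hpq A hA
      rwa [rows_sum b (by linarith) (hq hp)] at h
  · intro H _ _ _ ι b m n T N p q A hN hT1 hT hpq hA
    have hTT : ∀ j j', ∑ i, conj (T i j) * T i j' = if j = j' then (N : ℂ) else 0 := by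
      intro j j'
      have h := congrFun (congrFun hT j) j'
      rw [Matrix.mul_apply, Matrix.smul_apply, Matrix.one_apply] at h
      simp only [Matrix.conjTranspose_apply, smul_eq_mul, mul_ite, mul_one, mul_zero] at h
      exact h
    exact ⟨fun hp => lower b hT1 hN hTT hp hpq A hA, fun hp hp2 => upper b hT1 hN hTT hp hp2 hpq A hA⟩

end Pool.Agent.Results.MP_5deb6a_an.ClarksonTuples
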